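import Pool.Agent.P.MP_7da47b_al.Example

namespace Pool.Agent.Results.MP_7da47b_al.Counterexample

open Pool.Agent.P.MP_7da47b_al

universe u

/-- The graded classification conjecture fails over every field: two finite graphs whose graded
Grothendieck groups are isomorphic as pointed pre-ordered modules, while their Leavitt path
algebras are not graded isomorphic at all. -/
theorem result : ∃ E F : FinGraph, ∀ (k : Type u) [Field k],
    (∃ φ : K0gr (lpaGrading k E) ≃+ K0gr (lpaGrading k F),
      K0gr.PointedIso (lpaGrading k E) (lpaGrading k F) φ) ∧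
    ¬ ∃ ψ : LPA k E ≃ₐ[k] LPA k F, ∀ (n : ℤ) (x : LPA k E), x ∈ grade k E n → ψ x ∈ grade k F n :=
  ⟨gE, gF, fun k _ => ⟨k0_iso k, no_iso k⟩⟩

end Pool.Agent.Results.MP_7da47b_al.Counterexample
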